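import Pool.Agent.helper58.FS.Defs
import Pool.Agent.helper58.FS.Stub.C
import Pool.Agent.helper58.FS.Stub.E
import Pool.Agent.helper58.FS.Stub.K
import Pool.Agent.helper58.FS.Stub.U
import Pool.Agent.helper58.FS.Stub.T4

/-!
# [FS-V] the levels A, B, C

Assembly by induction: `lvlA`, `lvlB`, `lvlB'`, `lvlC`.
-/

set_option autoImplicit false

open scoped Matrix
open Pool.Agent.helper73.TC

namespace Pool.Agent.helper58.FS

variable {V : Type} [Fintype V] [DecidableEq V] (G : SimpleGraph V) [DecidableRel G.Adj]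
variable {K : Type} [Field K] [CharZero K]

omit [CharZero K] [Field K] in
theorem h96_card_insert {σ : Finset V} {f : V} (hf : f ∈ cn G σ) :
    (insert f σ).card = σ.card + 1 :=
  Finset.card_insert_of_notMem (not_mem_of_cn G hf)

theorem h96_mem_cn {σ : Finset V} {f : V} : f ∈ cn G σ ↔ ∀ u ∈ σ, G.Adj u f := by
  simp [cn]

theorem h96_st_eq (σ : Finset V) (u : V) :
    st G (cn G σ) u = insert u (cn G (insert u σ)) := by
  rw [cn_insert]; rfl

theorem h96_not_mem_self (σ : Finset V) (u : V) : u ∉ cn G (insert u σ) := by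
  intro h
  rw [h96_mem_cn] at h
  exact G.loopless.irrefl u (h u (Finset.mem_insert_self u σ))

theorem h96_star (ρ : ℕ) (σ : Finset V) (u : V) (h : GRig G K ρ (cn G (insert u σ))) :
    GRig G K (ρ + 1) (st G (cn G σ) u) := by
  rw [h96_st_eq]
  refine grig_cone G ρ _ u (h96_not_mem_self G σ u) ?_ h
  intro w hw
  exact (h96_mem_cn G).1 hw u (Finset.mem_insert_self u σ)

theorem h96_star_erase (ρ : ℕ) (σ : Finset V) (u x : V) (hx : x ≠ u)
    (h : GRig G K ρ ((cn G (insert u σ)).erase x)) :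
    GRig G K (ρ + 1) ((st G (cn G σ) u).erase x) := by
  rw [h96_st_eq, Finset.erase_insert_of_ne hx.symm]
  refine grig_cone G ρ _ u (fun hh => h96_not_mem_self G σ u (Finset.mem_of_mem_erase hh)) ?_ h
  intro w hw
  exact (h96_mem_cn G).1 (Finset.mem_of_mem_erase hw) u (Finset.mem_insert_self u σ)

theorem h96_overlap {d : ℕ} (h : FlagLike G d) (k : ℕ) (hk : 1 ≤ k) {σ : Finset V}
    (hσ : G.IsClique (σ : Set V)) (hc : σ.card + k + 1 ≤ d) {u u' : V} (hu : u ∈ cn G σ)
    (hu' : u' ∈ cn G σ) (huu : G.Adj u u') :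
    2 * k ≤ (st G (cn G σ) u ∩ st G (cn G σ) u').card := by
  have hne : u ≠ u' := huu.ne
  have hmem' : u' ∈ cn G (insert u σ) := by
    rw [h96_mem_cn]
    intro w hw
    rcases Finset.mem_insert.1 hw with rfl | hw
    · exact huu
    · exact (h96_mem_cn G).1 hu' w hw
  set τ : Finset V := insert u' (insert u σ) with hτ
  have hcl1 : G.IsClique ((insert u σ : Finset V) : Set V) := clique_insert G hσ hu
  have hcl2 : G.IsClique ((τ : Finset V) : Set V) := clique_insert G hcl1 hmem'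
  have hcard : τ.card = σ.card + 2 := by
    rw [hτ, h96_card_insert G hmem', h96_card_insert G hu]
  have huT : u ∉ cn G τ := by
    intro hh
    exact G.loopless.irrefl u ((h96_mem_cn G).1 hh u (by rw [hτ]; simp))
  have huT' : u' ∉ cn G τ := by
    intro hh
    exact G.loopless.irrefl u' ((h96_mem_cn G).1 hh u' (by rw [hτ]; simp))
  have hsub : insert u (insert u' (cn G τ)) ⊆ st G (cn G σ) u ∩ st G (cn G σ) u' := by
    intro w hw
    simp only [Finset.mem_insert] at hw
    simp only [Finset.mem_inter, st, nb, Finset.mem_insert, Finset.mem_filter]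
    rcases hw with rfl | rfl | hw
    · exact ⟨Or.inl rfl, Or.inr ⟨hu, huu.symm⟩⟩
    · exact ⟨Or.inr ⟨hu', huu⟩, Or.inl rfl⟩
    · have hw' := (h96_mem_cn G).1 hw
      have h1 : w ∈ cn G σ := by
        rw [h96_mem_cn]
        intro y hy
        exact hw' y (by rw [hτ]; simp [hy])
      exact ⟨Or.inr ⟨h1, hw' u (by rw [hτ]; simp)⟩, Or.inr ⟨h1, hw' u' (by rw [hτ]; simp)⟩⟩
  have hc1 : (insert u (insert u' (cn G τ))).card = (cn G τ).card + 2 := by
    rw [Finset.card_insert_of_notMem, Finset.card_insert_of_notMem huT']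
    simp only [Finset.mem_insert, not_or]
    exact ⟨hne, huT⟩
  have hle := Finset.card_le_card hsub
  rw [hc1] at hle
  rcases Nat.lt_or_ge k 2 with hk2 | hk2
  · omega
  · have := card_cn G h (k - 2) hcl2 (by omega)
    omega

theorem h96_overlap_erase {d : ℕ} (h : FlagLike G d) (k : ℕ) (hk : 1 ≤ k) {σ : Finset V}
    (hσ : G.IsClique (σ : Set V)) (hc : σ.card + k + 1 ≤ d) {u u' : V} (hu : u ∈ cn G σ)
    (hu' : u' ∈ cn G σ) (huu : G.Adj u u') (x : V) :
    2 * k - 1 ≤ ((st G (cn G σ) u).erase x ∩ (st G (cn G σ) u').erase x).card := by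
  have h1 := h96_overlap G h k hk hσ hc hu hu' huu
  have h2 : (st G (cn G σ) u ∩ st G (cn G σ) u').erase x ⊆
      (st G (cn G σ) u).erase x ∩ (st G (cn G σ) u').erase x := by
    intro w hw
    simp only [Finset.mem_inter, Finset.mem_erase] at hw ⊢
    exact ⟨⟨hw.1, hw.2.1⟩, ⟨hw.1, hw.2.2⟩⟩
  have h3 := Finset.card_le_card h2
  have h4 := Finset.pred_card_le_card_erase (s := st G (cn G σ) u ∩ st G (cn G σ) u') (a := x)
  omega

theorem h96_biUnion_all (L : Finset V) : L.biUnion (fun u => st G L u) = L := by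
  ext y
  simp only [Finset.mem_biUnion, st, nb, Finset.mem_insert, Finset.mem_filter]
  constructor
  · rintro ⟨u, hu, rfl | h⟩
    · exact hu
    · exact h.1
  · intro hy
    exact ⟨y, hy, Or.inl rfl⟩

theorem h96_biUnion_far {d : ℕ} (h : FlagLike G d) {σ : Finset V}
    (hσ : G.IsClique (σ : Set V)) {x : V} (hx : x ∈ cn G σ) :
    (far G (cn G σ) x).biUnion (fun u => st G (cn G σ) u) = (cn G σ).erase x := by
  ext y
  constructor
  · intro hy
    simp only [Finset.mem_biUnion, st, nb, far, Finset.mem_insert, Finset.mem_filter] at hy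
    obtain ⟨u, ⟨hu, hux, hxu⟩, rfl | hh⟩ := hy
    · exact Finset.mem_erase.2 ⟨hux, hu⟩
    · refine Finset.mem_erase.2 ⟨?_, hh.1⟩
      rintro rfl
      exact hxu hh.2.symm
  · intro hy
    obtain ⟨hyx, hyL⟩ := Finset.mem_erase.1 hy
    by_cases hadj : G.Adj x y
    · obtain ⟨g, hg, hyg⟩ := far_dom G h hσ hx (u := y)
        (by simp only [nb, Finset.mem_filter]; exact ⟨hyL, hadj⟩)
      refine Finset.mem_biUnion.2 ⟨g, hg, ?_⟩
      simp only [st, nb, Finset.mem_insert, Finset.mem_filter]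
      exact Or.inr ⟨hyL, hyg.symm⟩
    · refine Finset.mem_biUnion.2 ⟨y, ?_, ?_⟩
      · simp only [far, Finset.mem_filter]
        exact ⟨hyL, hyx, hadj⟩
      · simp [st]

theorem h96_far_subset (L : Finset V) (x : V) : far G L x ⊆ L := Finset.filter_subset _ _

/-- gluing the stars of the vertices far from `x` -/
theorem h96_glue_far {d : ℕ} (h : FlagLike G d) (k ρ : ℕ) (hk : 1 ≤ k) (hρ : ρ ≤ 2 * k)
    {σ : Finset V} (hσ : G.IsClique (σ : Set V)) (hc : σ.card + k + 1 ≤ d)
    (hstar : ∀ u ∈ cn G σ, GRig G K ρ (st G (cn G σ) u)) {x : V} (hx : x ∈ cn G σ) :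
    GRig G K ρ ((cn G σ).erase x) := by
  rw [← h96_biUnion_far G h hσ hx]
  refine grig_glue G ρ _ (h.conn σ hσ x hx) (h.ne σ hσ x hx) _ ?_ ?_
  · intro v hv
    exact hstar v (h96_far_subset G _ _ hv)
  · intro v hv v' hv' hvv
    exact hρ.trans (h96_overlap G h k hk hσ hc (h96_far_subset G _ _ hv)
      (h96_far_subset G _ _ hv') hvv)

/-- gluing all the stars -/
theorem h96_glue_all {d : ℕ} (h : FlagLike G d) (k ρ : ℕ) (hk : 1 ≤ k) (hρ : ρ ≤ 2 * k)
    {σ : Finset V} (hσ : G.IsClique (σ : Set V)) (hc : σ.card + k + 1 ≤ d)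
    (hstar : ∀ u ∈ cn G σ, GRig G K ρ (st G (cn G σ) u)) :
    GRig G K ρ (cn G σ) := by
  have key : GRig G K ρ ((cn G σ).biUnion (fun u => st G (cn G σ) u)) := by
    refine grig_glue G ρ _ (noSep_cn G h hσ (by omega)) (h.pure σ hσ (by omega)) _ hstar ?_
    intro v hv v' hv' hvv
    exact hρ.trans (h96_overlap G h k hk hσ hc hv hv' hvv)
  rwa [h96_biUnion_all] at key

theorem lvlA {d : ℕ} (h : FlagLike G d) (k : ℕ) {σ : Finset V} (hσ : G.IsClique (σ : Set V))
    (hc : σ.card + k + 1 ≤ d) : GRig G K (k + 1) (cn G σ) ∧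
      ∀ x, GRig G K (k + 1) ((cn G σ).erase x) := by
  induction k generalizing σ with
  | zero => exact ⟨grig_one G _, fun x => grig_one G _⟩
  | succ k ih =>
    have hstar : ∀ u ∈ cn G σ, GRig G K (k + 1 + 1) (st G (cn G σ) u) := by
      intro u hu
      refine h96_star G (k + 1) σ u (ih (clique_insert G hσ hu) ?_).1
      rw [h96_card_insert G hu]; omega
    have hall : GRig G K (k + 1 + 1) (cn G σ) :=
      h96_glue_all G h (k + 1) _ (by omega) (by omega) hσ hc hstar
    refine ⟨hall, fun x => ?_⟩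
    by_cases hx : x ∈ cn G σ
    · exact h96_glue_far G h (k + 1) _ (by omega) (by omega) hσ hc hstar hx
    · rw [Finset.erase_eq_of_notMem hx]; exact hall

/-- the trick for a link -/
theorem h96_trick {d : ℕ} (h : FlagLike G d) (k ρ : ℕ) (hk : 1 ≤ k) (hρ : ρ + 1 ≤ 2 * k)
    {σ : Finset V} (hσ : G.IsClique (σ : Set V)) (hc : σ.card + k + 1 ≤ d)
    (hpiece : ∀ v ∈ cn G σ, ∀ x ∈ cn G σ, x ≠ v → GRig G K ρ ((st G (cn G σ) v).erase x))
    (hwhole : GRig G K ρ (cn G σ)) : GRig G K (ρ + 1) (cn G σ) := by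
  obtain ⟨x, hx⟩ := h.pure σ hσ (by omega)
  refine trick G ρ (cn G σ) hpiece ?_ ?_ (noSep_cn G h hσ (by omega)) hwhole x hx
    (h.ne σ hσ x hx) (h.conn σ hσ x hx) (fun u hu => far_dom G h hσ hx hu)
  · intro v hv v' hv' hvv y _ _ _
    have := h96_overlap_erase G h k hk hσ hc hv hv' hvv y
    omega
  · intro y hy A F B hU hAF hAB hFB hno hA hB
    rw [← cn_insert] at hU
    have := sep G h (k - 1) (clique_insert G hσ hy)
      (by rw [h96_card_insert G hy]; omega) A F B hU hAF hAB hFB hno hA hB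
    omega

theorem lvlB {d : ℕ} (h : FlagLike G d) (k : ℕ) (hk : 2 ≤ k) {σ : Finset V}
    (hσ : G.IsClique (σ : Set V)) (hc : σ.card + k + 1 ≤ d) : GRig G K (k + 2) (cn G σ) := by
  obtain ⟨m, rfl⟩ : ∃ m, k = m + 1 := ⟨k - 1, by omega⟩
  refine h96_trick G h (m + 1) (m + 1 + 1) (by omega) (by omega) hσ hc ?_
    (lvlA G h (m + 1) hσ hc).1
  intro v hv x hx hxv
  refine h96_star_erase G (m + 1) σ v x hxv ((lvlA G h m (clique_insert G hσ hv) ?_).2 x)
  rw [h96_card_insert G hv]; omega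

theorem lvlB' {d : ℕ} (h : FlagLike G d) (k : ℕ) (hk : 3 ≤ k) {σ : Finset V}
    (hσ : G.IsClique (σ : Set V)) (hc : σ.card + k + 1 ≤ d) (x : V) :
    GRig G K (k + 2) ((cn G σ).erase x) := by
  by_cases hx : x ∈ cn G σ
  · obtain ⟨m, rfl⟩ : ∃ m, k = m + 1 := ⟨k - 1, by omega⟩
    refine h96_glue_far G h (m + 1) _ (by omega) (by omega) hσ hc ?_ hx
    intro u hu
    refine h96_star G (m + 1 + 1) σ u (lvlB G h m (by omega) (clique_insert G hσ hu) ?_)
    rw [h96_card_insert G hu]; omega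
  · rw [Finset.erase_eq_of_notMem hx]
    exact lvlB G h k (by omega) hσ hc

theorem lvlC {d : ℕ} (hd : 5 ≤ d) (h : FlagLike G d) : GRig G K (d + 2) Finset.univ := by
  have hcn : cn G (∅ : Finset V) = Finset.univ := by
    ext v; simp [cn]
  have hcl : G.IsClique ((∅ : Finset V) : Set V) := by
    simp
  obtain ⟨m, rfl⟩ : ∃ m, d = m + 2 := ⟨d - 2, by omega⟩
  have key : GRig G K (m + 3 + 1) (cn G (∅ : Finset V)) := by
    refine h96_trick G h (m + 1) (m + 3) (by omega) (by omega) hcl (by simp) ?_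
      (lvlB G h (m + 1) (by omega) hcl (by simp))
    intro v hv x hx hxv
    refine h96_star_erase G (m + 2) ∅ v x hxv
      (lvlB' G h m (by omega) (clique_insert G hcl hv) ?_ x)
    rw [h96_card_insert G hv]; simp; omega
  rw [hcn] at key
  exact key

end Pool.Agent.helper58.FS
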